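import Pool.Agent.R896.RB.Asm
import Pool.Agent.R896.RB.Ram
import Pool.Agent.R896.RB.RG
import Pool.Agent.R896.RB.Low
import Pool.Agent.R896.RB.Good
import Pool.Agent.R896.RB.Step
import Pool.Agent.R896.RB.Graph
import Pool.Agent.R896.RB.Seq896

/-! The minimum Ramsey number of graphs without isolated vertices (MP_624632_co, Q1, full answer):
`f(n) = n + (1 + o(1)) log_2 n`, as conjectured.

Definitions (in `Pool.Agent.R896.RB.Defs`): `Arrows N G`: for every simple graph `H` on `N` vertices,
`G` is contained in `H` or in its complement (every 2-colouring of `K_N` has a monochromatic `G`);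
`NoIsolated G`: every vertex has a neighbour; `ram G`: the least `N` with `Arrows N G` (it exists by
Ramsey's theorem, which is proved in the file `Ram`); `f n`: the least `ram G` over the graphs `G` on
`n` vertices without isolated vertices. -/

set_option autoImplicit false

namespace Pool.Agent.Results.MP_624632_co.MinimumRamseyNumber

open Filter Topology Pool.Agent.R896.RB

/-- `(f(n) - n) / log_2 n → 1`. -/
theorem result :
    Tendsto (fun n : ℕ => ((f n : ℝ) - n) / Real.logb 2 n) atTop (𝓝 1) :=
  assemble ramF (low rg) good stp sq grph

end Pool.Agent.Results.MP_624632_co.MinimumRamseyNumber
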